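import Mathlib
import Pool.Agent.H604.LD.StmG
import Pool.Agent.H985.Chow.StmRT
import Pool.Agent.H985.Chow.StmKey
import Pool.Agent.H604.FC.Stm
import Pool.Agent.H560.AR.Stm

/-!
# The Möbius function around squares, `q` even (helper560): statements of the parts

`f = A² + δ`, `deg δ < h`: `δ = x² + X y²`, `f = (A + x)² + X y²`. For fixed `y = c e h` the parity of `f`
is a product of local factors at the irreducible factors of `h` and of a phase at infinity, which is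
additive in `x` for `deg x ≤ deg y`.
-/

set_option autoImplicit false

namespace Pool.Agent.H560.SQ

open Polynomial
open scoped Classical
open Pool.Agent.H985.Chow (mob lc MD Wr S_sgn)
open Pool.Agent.H985.Par (Sft)
open Pool.Agent.H985.KP (sg PA Good2 S_typ2)
open Pool.Agent.H985.FC (GP)
open Pool.Agent.H524 (AC)
open Pool.Agent.H694.Typ (Mn Irn PU)
open Pool.Agent.H560.SI (Smt)

/-- **Task RTI.**  The residue theorem without a condition on the degrees. -/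
def S_rtI : Prop :=
  ∀ (R : Type) [CommRing R] [IsDomain R] (k : ℕ), 1 ≤ k → ∀ (ι : Type) [Fintype ι] [DecidableEq ι]
    (r : ι → R) (E G₁ G₂ N₁ N₂ P₁ P₂ : R[X]) (c₁ c₂ : ι → R[X]),
    E.Monic → G₁.Monic → G₂.Monic →
    (∀ i j, i ≠ j → IsUnit (r i - r j)) → (∀ i, IsUnit (E.eval (r i))) →
    IsCoprime E G₁ → IsCoprime E G₂ →
    (∀ i, IsUnit (G₁.eval (r i))) → (∀ i, IsUnit (G₂.eval (r i))) →
    1 ≤ G₁.natDegree → 1 ≤ G₂.natDegree →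
    G₁ ∣ N₁ - P₁ * (E * ∏ i, (X - C (r i))) ^ k →
    G₂ ∣ N₂ - P₂ * (E * ∏ i, (X - C (r i))) ^ k →
    E ^ k ∣ N₁ * G₂ - N₂ * G₁ →
    (∀ i, (c₁ i).natDegree < k) → (∀ i, (c₂ i).natDegree < k) →
    (∀ i, (X - C (r i)) ^ k ∣ c₁ i * (E * ∏ j ∈ Finset.univ.erase i, (X - C (r j))) ^ k * G₁ - N₁) →
    (∀ i, (X - C (r i)) ^ k ∣ c₂ i * (E * ∏ j ∈ Finset.univ.erase i, (X - C (r j))) ^ k * G₂ - N₂) →
    lc G₁ P₁ - lc G₂ P₂ = lc ((E * ∏ i, (X - C (r i))) ^ k * G₁) N₁ -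
      lc ((E * ∏ i, (X - C (r i))) ^ k * G₂) N₂ -
      ∑ i, ((c₁ i).coeff (k - 1) - (c₂ i).coeff (k - 1))

/-- The phase at infinity of `a² + X (c g)²`: the coefficient of `X⁻¹` in
`(a a' + X b b') a' ^ 2 / b ^ 4 + X a' ^ 3 / (a b ^ 2)`, `b = c g`. -/
noncomputable def phi {K : Type} [Field K] (c : K) (g a : K[X]) : K :=
  c⁻¹ ^ 4 * lc (g ^ 4) ((a * derivative a + X * (C c * g) * derivative (C c * g)) *
    (derivative a) ^ 2) + c⁻¹ ^ 2 * lc (g ^ 2 * a) (X * (derivative a) ^ 3)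

/-- **Task KEYI.**  The key formula for `deg a > deg b`. -/
def S_keyI : Prop :=
  ∀ (K : Type) [Field K] [Fintype K] [CharP K 2] (d : ℕ) (c : K) (a₁ a₂ e h : K[X]),
    c ≠ 0 → e.Monic → h.Monic → IsCoprime e h → Squarefree h →
    a₁.Monic → a₁.natDegree = d → a₂.Monic → a₂.natDegree = d → (e * h).natDegree < d →
    IsCoprime a₁ (e * h) → IsCoprime a₂ (e * h) → e ^ 5 ∣ a₂ - a₁ →
    (a₂ - a₁).natDegree ≤ (e * h).natDegree →
    ∃ w : K, algebraMap K (AC K) w = ∑ ρ ∈ (h.aroots (AC K)).toFinset,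
        (Wr a₁ (C c * (e * h)) ρ + Wr a₂ (C c * (e * h)) ρ) ∧
      mob (a₁ ^ 2 + X * (C c * (e * h)) ^ 2) * mob (a₂ ^ 2 + X * (C c * (e * h)) ^ 2) =
        if ∃ x : K, x ^ 2 + x = w + (phi c (e * h) a₁ + phi c (e * h) a₂) then 1 else -1

/-- **Task ADDI.**  The phase at infinity is additive. -/
def S_addI : Prop :=
  ∀ (K : Type) [Field K] [Fintype K] [CharP K 2] (d : ℕ) (c : K) (g a x y : K[X]),
    c ≠ 0 → g.Monic → a.Monic → a.natDegree = d → g.natDegree < d →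
    x.natDegree ≤ g.natDegree → y.natDegree ≤ g.natDegree →
    sg (phi c g (a + x + y)) * sg (phi c g a) = sg (phi c g (a + x)) * sg (phi c g (a + y))

/-- **Task WINI.**  The product formula in a window, for `deg Z > deg b`. -/
def S_winI : Prop :=
  ∀ (K : Type) [Field K] [Fintype K] [CharP K 2] (d L : ℕ) (c : K) (Z e h E : K[X]),
    c ≠ 0 → e.Monic → h.Monic → IsCoprime e h → Squarefree h → E ≠ 0 →
    e ^ 5 ∣ E → IsCoprime E h → 1 ≤ L → Z.Monic → Z.natDegree = d → (e * h).natDegree < d →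
    E.natDegree + (L - 1) ≤ (e * h).natDegree →
    ∃ (η : ℝ) (χ : AddChar K[X] ℝ), |η| ≤ 1 ∧ (∀ u, χ u = 1 ∨ χ u = -1) ∧
      ∀ u : K[X], u.degree < (L : WithBot ℕ) →
      (mob ((Z + E * u) ^ 2 + X * (C c * (e * h)) ^ 2) : ℝ) =
        η * (χ u * ∏ᶠ P ∈ PA h, GP (C c * (e * h)) 1 P (Z + E * u))

/-- **Task SQW.**  The sum over `x` for a typical `b`. -/
def S_sqW : Prop :=
  ∀ (K : Type) [Field K] [Fintype K] [CharP K 2] (ε δ : ℝ) (E₀ : ℕ), 0 < ε → 0 < δ →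
    ∃ β₀ : ℕ, ∀ β : ℕ, β₀ ≤ β → ∀ (d : ℕ) (c : K) (b Z : K[X]), β < d → c ≠ 0 → b ∈ MD K β →
      Good2 1 δ E₀ β b → Z.Monic → Z.natDegree = d →
      |∑ᶠ x ∈ {x : K[X] | x.degree < ((β + 1 : ℕ) : WithBot ℕ)},
        (mob ((Z + x) ^ 2 + X * (C c * b) ^ 2) : ℝ)| ≤ ε * (Fintype.card K : ℝ) ^ (β + 1)

/-- **Task SQ.**  The Möbius function cancels in all intervals around squares. -/
def S_sq : Prop :=
  ∀ (K : Type) [Field K] [Fintype K] [CharP K 2] (ε : ℝ), 0 < ε →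
    ∃ h₀ : ℕ, ∀ h : ℕ, h₀ ≤ h → ∀ A : K[X], A.Monic → h ≤ 2 * A.natDegree →
      |∑ᶠ δ ∈ {δ : K[X] | δ.degree < (h : WithBot ℕ)}, (mob (A ^ 2 + δ) : ℝ)| ≤
        ε * (Fintype.card K : ℝ) ^ h

/-- **Task WBI.**  The window bound for smooth `s`, with saving. -/
def S_wbI : Prop :=
  ∀ (K : Type) [Field K] [Fintype K] [CharP K 2] (lam : ℝ), 0 < lam →
    ∃ κ c : ℝ, 0 < κ ∧ 0 < c ∧ ∃ n₀ : ℕ, ∀ n : ℕ, n₀ ≤ n → ∀ (d L L' : ℕ) (γ : K) (s F D : K[X]),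
      n = 2 * d → L ≤ d → lam * n ≤ (L : ℝ) → γ ≠ 0 → s.Monic → s.natDegree + 1 = L → Squarefree s →
      Smt (L / 8) s → F.Monic → F.natDegree = n → derivative F = (C γ * s) ^ 2 →
      D.Monic → (D.natDegree : ℝ) ≤ κ * n → D.natDegree + L' = L →
      |∑ᶠ v ∈ {v : K[X] | v.degree < (L' : WithBot ℕ)}, (mob (F + (D * v) ^ 2) : ℝ)| ≤
        (Fintype.card K : ℝ) ^ ((L : ℝ) - c * n)

/-- **Task T2G.**  Almost primes with both parities from a window bound, abstract form. -/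
def S_t2G : Prop :=
  ∀ (K : Type) [Field K] [Fintype K] [CharP K 2] (lam κ₀ c₀ : ℝ), 0 < lam → 0 < κ₀ → 0 < c₀ →
    ∃ κ c : ℝ, 0 < κ ∧ 0 < c ∧ ∃ n₀ : ℕ, ∀ n : ℕ, n₀ ≤ n →
      ∀ (L : ℕ) (Q : K[X]) (A G : Finset K[X]) (σ : ℤ), lam * n ≤ (L : ℝ) → Q.Monic →
      Squarefree Q → 2 * L + Q.natDegree ≤ n + 1 →
      (∀ s ∈ A, s ≠ 0 ∧ s.natDegree ≤ n ∧ Squarefree s ∧ Smt (L / 8) s ∧ IsCoprime Q s ∧
        (∃ F : K[X], F.Monic ∧ F.natDegree = n ∧ derivative (Q * F) = s ^ 2 ∧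
          ∀ t : K[X], t.degree < (L : WithBot ℕ) → F + Q * t ^ 2 ∈ G) ∧
        ∀ F : K[X], F.Monic → F.natDegree = n → derivative (Q * F) = s ^ 2 →
          ∀ (D : K[X]) (L' : ℕ), D.Monic → (D.natDegree : ℝ) ≤ κ₀ * n → D.natDegree + L' = L →
          |∑ᶠ v ∈ {v : K[X] | v.degree < (L' : WithBot ℕ)}, (mob (F + Q * (D * v) ^ 2) : ℝ)| ≤
            (Fintype.card K : ℝ) ^ ((L : ℝ) - c₀ * n)) →
      (σ = 1 ∨ σ = -1) →
      c * A.card * (Fintype.card K : ℝ) ^ L / n ≤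
        (G.filter (fun f => mob f = σ ∧ Sft ⌊κ * n⌋₊ f)).card

end Pool.Agent.H560.SQ
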