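import Mathlib
import Pool.Agent.H560.SQ.Stm

/-!
# Around squares, `q` even (helper560): statements of the last parts
-/

set_option autoImplicit false

namespace Pool.Agent.H560.SQ

open Polynomial
open scoped Classical
open Pool.Agent.H985.Chow (mob)
open Pool.Agent.H985.Par (Sft)
open Pool.Agent.H694.Typ (Mn Irn PU)
open Pool.Agent.H560.SI (Smt Itv)

/-- **Task WBK.**  The window bound for smooth `s`, with saving; the scale is `n`, the degree is `2 d`. -/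
def S_wbK : Prop :=
  ∀ (K : Type) [Field K] [Fintype K] [CharP K 2] (lam : ℝ), 0 < lam →
    ∃ κ c : ℝ, 0 < κ ∧ 0 < c ∧ ∃ n₀ : ℕ, ∀ n : ℕ, n₀ ≤ n → ∀ (d L L' : ℕ) (γ : K) (s F D : K[X]),
      L ≤ s.natDegree + 1 → s.natDegree < d → 2 * s.natDegree ≤ n → lam * n ≤ (L : ℝ) → γ ≠ 0 →
      s.Monic → Squarefree s → Smt (L / 8) s → F.Monic → F.natDegree = 2 * d →
      derivative F = (C γ * s) ^ 2 → D.Monic → (D.natDegree : ℝ) ≤ κ * n → D.natDegree + L' = L →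
      |∑ᶠ v ∈ {v : K[X] | v.degree < (L' : WithBot ℕ)}, (mob (F + (D * v) ^ 2) : ℝ)| ≤
        (Fintype.card K : ℝ) ^ ((L : ℝ) - c * n)

/-- **Task T2H.**  Almost primes with both parities from a window bound; the scale is `n`, the degree
is `m`. -/
def S_t2H : Prop :=
  ∀ (K : Type) [Field K] [Fintype K] [CharP K 2] (lam κ₀ c₀ : ℝ), 0 < lam → 0 < κ₀ → 0 < c₀ →
    ∃ κ c : ℝ, 0 < κ ∧ 0 < c ∧ ∃ n₀ : ℕ, ∀ n : ℕ, n₀ ≤ n →
      ∀ (m L : ℕ) (Q : K[X]) (A G : Finset K[X]) (σ : ℤ), lam * n ≤ (L : ℝ) → L ≤ n → Q.Monic →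
      2 * L + Q.natDegree ≤ m + 1 →
      (∀ s ∈ A, s ≠ 0 ∧ s.natDegree ≤ n ∧ Squarefree s ∧ Smt (L / 8) s ∧ IsCoprime Q s ∧
        (∃ F : K[X], F.Monic ∧ F.natDegree = m ∧ derivative (Q * F) = s ^ 2 ∧
          ∀ t : K[X], t.degree < (L : WithBot ℕ) → F + Q * t ^ 2 ∈ G) ∧
        ∀ F : K[X], F.Monic → F.natDegree = m → derivative (Q * F) = s ^ 2 →
          ∀ (D : K[X]) (L' : ℕ), D.Monic → (D.natDegree : ℝ) ≤ κ₀ * n → D.natDegree + L' = L →
          |∑ᶠ v ∈ {v : K[X] | v.degree < (L' : WithBot ℕ)}, (mob (F + Q * (D * v) ^ 2) : ℝ)| ≤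
            (Fintype.card K : ℝ) ^ ((L : ℝ) - c₀ * n)) →
      (σ = 1 ∨ σ = -1) →
      c * A.card * (Fintype.card K : ℝ) ^ L / n ≤
        (G.filter (fun f => mob f = σ ∧ Sft ⌊κ * n⌋₊ f)).card

/-- **Task T2K.**  Both parities among the polynomials without small irreducible factors, in all
intervals near squares. -/
def S_t2K : Prop :=
  ∀ (K : Type) [Field K] [Fintype K] [CharP K 2] (ε : ℝ), 0 < ε →
    ∃ κ c : ℝ, 0 < κ ∧ 0 < c ∧ ∃ h₀ : ℕ, ∀ h : ℕ, h₀ ≤ h → ∀ (A R : K[X]) (σ : ℤ),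
      A.Monic → h ≤ 2 * A.natDegree → R.degree < ((2 * A.natDegree : ℕ) : WithBot ℕ) →
      (R.natDegree : ℝ) ≤ (2 - ε) * h → (σ = 1 ∨ σ = -1) →
      c * (Fintype.card K : ℝ) ^ h / h ≤
        ((Itv K (2 * A.natDegree) h (A ^ 2 + R)).filter (fun f => mob f = σ ∧ Sft ⌊κ * h⌋₊ f)).card

/-- **Task CNT.**  The number of squarefree polynomials of an interval around a square. -/
def S_cntSq : Prop :=
  ∀ (K : Type) [Field K] [Fintype K] [CharP K 2] (h : ℕ) (A : K[X]), 4 ≤ h → h ≤ 2 * A.natDegree →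
    A.Monic →
    (((Itv K (2 * A.natDegree) h (A ^ 2)).filter Squarefree).card : ℝ) =
      (1 - 1 / (Fintype.card K : ℝ)) * (Fintype.card K : ℝ) ^ h

/-- The Liouville function. -/
noncomputable def lio {K : Type} [Field K] (f : K[X]) : ℤ :=
  (-1) ^ Multiset.card (UniqueFactorizationMonoid.factors f)

/-- **Task LAM.**  The Liouville function from the Möbius function. -/
def S_lam : Prop :=
  ∀ (K : Type) [Field K] [Fintype K] [CharP K 2] (ε : ℝ), 0 < ε →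
    ∃ h₀ : ℕ, ∀ h : ℕ, h₀ ≤ h → ∀ A : K[X], A.Monic → h ≤ 2 * A.natDegree →
      |∑ᶠ δ ∈ {δ : K[X] | δ.degree < (h : WithBot ℕ)}, (lio (A ^ 2 + δ) : ℝ)| ≤
        ε * (Fintype.card K : ℝ) ^ h

end Pool.Agent.H560.SQ
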