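import Mathlib
import Pool.Agent.H560.SQ.StmB

/-!
# Around squares, `q` even (helper560): the asymptotic formula for sifted polynomials with a parity
-/

set_option autoImplicit false

namespace Pool.Agent.H560.SQ

open Polynomial
open scoped Classical
open Pool.Agent.H985.Chow (mob MD)
open Pool.Agent.H985.Par (Sft)
open Pool.Agent.H985.KP (Good2)
open Pool.Agent.H694.Typ (Mn PU)
open Pool.Agent.H560.SI (Itv)

/-- Mertens' product. -/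
noncomputable def VV (K : Type) [Field K] [Fintype K] (z : ℕ) : ℝ :=
  ∏ P ∈ PU K z, (1 - 1 / (Fintype.card K : ℝ) ^ P.natDegree)

/-- **Task SQD.**  The sum over `x` in a class modulo `D` for a typical `b`, with a power saving. -/
def S_sqD : Prop :=
  ∀ (K : Type) [Field K] [Fintype K] [CharP K 2] (δ : ℝ) (E₀ : ℕ), 0 < δ →
    ∃ κ c : ℝ, 0 < κ ∧ 0 < c ∧ ∃ β₀ : ℕ, ∀ β : ℕ, β₀ ≤ β → ∀ (d L' : ℕ) (γ : K) (b Z D : K[X]),
      β < d → γ ≠ 0 → b ∈ MD K β → Good2 1 δ E₀ β b → Z.Monic → Z.natDegree = d → D.Monic →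
      (D.natDegree : ℝ) ≤ κ * β → D.natDegree + L' = β + 1 →
      |∑ᶠ v ∈ {v : K[X] | v.degree < (L' : WithBot ℕ)},
        (mob ((Z + D * v) ^ 2 + X * (C γ * b) ^ 2) : ℝ)| ≤
        (Fintype.card K : ℝ) ^ ((β : ℝ) + 1 - c * β)

/-- **Task SIV.**  The sieve in a window `F + t²`. -/
def S_siv : Prop :=
  ∀ (K : Type) [Field K] [Fintype K] [CharP K 2] (η : ℝ), 0 < η →
    ∃ A : ℕ, ∀ (L z : ℕ) (F : K[X]), 1 ≤ z → A * z ≤ L →
      (1 - η) * VV K z * (Fintype.card K : ℝ) ^ L ≤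
        ({t : K[X] | t.degree < (L : WithBot ℕ) ∧ Sft z (F + t ^ 2)}.ncard : ℝ) ∧
      ({t : K[X] | t.degree < (L : WithBot ℕ) ∧ Sft z (F + t ^ 2)}.ncard : ℝ) ≤
        (1 + η) * VV K z * (Fintype.card K : ℝ) ^ L ∧
      ∀ B : ℝ, 0 ≤ B →
        (∀ (D r : K[X]) (L' : ℕ), D.Monic → D.natDegree ≤ A * z → D.natDegree + L' = L →
          r.degree < D.degree →
          |∑ᶠ v ∈ {v : K[X] | v.degree < (L' : WithBot ℕ)}, (mob (F + (r + D * v) ^ 2) : ℝ)| ≤ B) →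
        |∑ᶠ t ∈ {t : K[X] | t.degree < (L : WithBot ℕ) ∧ Sft z (F + t ^ 2)},
          (mob (F + t ^ 2) : ℝ)| ≤
          η * VV K z * (Fintype.card K : ℝ) ^ L + 2 * (2 * (Fintype.card K : ℝ)) ^ (A * z) * B

/-- **Task SUMR.**  The Möbius function on the sifted set around a square. -/
def S_sumR : Prop :=
  ∀ (K : Type) [Field K] [Fintype K] [CharP K 2] (ε : ℝ), 0 < ε →
    ∃ κ₀ : ℝ, 0 < κ₀ ∧ ∀ κ : ℝ, 0 < κ → κ ≤ κ₀ → ∃ h₀ : ℕ, ∀ h : ℕ, h₀ ≤ h → ∀ A : K[X], A.Monic →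
      h ≤ 2 * A.natDegree →
      |∑ᶠ δ ∈ {δ : K[X] | δ.degree < (h : WithBot ℕ) ∧ Sft ⌊κ * h⌋₊ (A ^ 2 + δ)},
        (mob (A ^ 2 + δ) : ℝ)| ≤ ε * VV K ⌊κ * h⌋₊ * (Fintype.card K : ℝ) ^ h

/-- **Task CNTR.**  The number of elements of the sifted set around a square, and of those which are
not squarefree. -/
def S_cntR : Prop :=
  ∀ (K : Type) [Field K] [Fintype K] [CharP K 2] (ε : ℝ), 0 < ε →
    ∃ κ₀ : ℝ, 0 < κ₀ ∧ ∀ κ : ℝ, 0 < κ → κ ≤ κ₀ → ∃ h₀ : ℕ, ∀ h : ℕ, h₀ ≤ h → ∀ A : K[X], A.Monic →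
      h ≤ 2 * A.natDegree →
      |(((Itv K (2 * A.natDegree) h (A ^ 2)).filter (fun f => Sft ⌊κ * h⌋₊ f)).card : ℝ) -
        VV K ⌊κ * h⌋₊ * (Fintype.card K : ℝ) ^ h| ≤ ε * VV K ⌊κ * h⌋₊ * (Fintype.card K : ℝ) ^ h ∧
      (((Itv K (2 * A.natDegree) h (A ^ 2)).filter
        (fun f => Sft ⌊κ * h⌋₊ f ∧ ¬ Squarefree f)).card : ℝ) ≤
          ε * VV K ⌊κ * h⌋₊ * (Fintype.card K : ℝ) ^ h

end Pool.Agent.H560.SQ
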