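import Pool.Agent.H560.SQ.StmB
import Pool.Agent.H120.SQ.T2G

/-!
# Almost primes with both parities, abstract form, the scale independent of the degree (after T2G by
helper120, helper599, helper97 and helper181)
-/

set_option autoImplicit false

namespace Pool.Agent.H560.SQ

open Polynomial Filter
open scoped Classical
open Pool.Agent.H985.Chow (mob)
open Pool.Agent.H985.Par (Sft)
open Pool.Agent.H694.Typ (Mn Irn PU mem_Mn card_Mn mem_Irn mem_PU irn_ge card_dvd_e)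
open Pool.Agent.H560.SI (Smt)
open Pool.Agent.H560.AR (S_rtQ)
open Pool.Agent.H120.SQ (window)
open Pool.Agent.H97.SI (exp_large Tn mem_Tn card_Tn card_class mob_cases mob_abs)
open Pool.Agent.H599.AR (not_dvd der fibres)

/-- **Task T2H.** -/
theorem t2H (hr : Pool.Agent.H560.AR.S_rtQ) (hv : Pool.Agent.H560.SI.S_vl)
    (hsw : Pool.Agent.H985.Par.S_sw) : S_t2H := by
  intro K _ _ _ lam κw cw hlam0 hκw hcw
  obtain ⟨A, hA⟩ := hsw K 1 (1 / 8) (by norm_num)
  obtain ⟨cv, hcv, Hv⟩ := hv K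
  have hA1 : (0 : ℝ) < A + 1 := by positivity
  obtain ⟨κ, hκ0, k1, k2, k3⟩ : ∃ κ : ℝ, 0 < κ ∧ (A + 1) * κ ≤ lam / 16 ∧ (A + 1) * κ ≤ κw ∧
      (A + 1) * κ ≤ cw / 4 := by
    refine ⟨min (lam / 16) (min κw (cw / 4)) / (A + 1), by positivity, ?_, ?_, ?_⟩ <;>
      rw [mul_div_cancel₀ _ hA1.ne']
    · exact min_le_left _ _
    · exact (min_le_right _ _).trans (min_le_left _ _)
    · exact (min_le_right _ _).trans (min_le_right _ _)
  have hA0 : (0 : ℝ) ≤ A := Nat.cast_nonneg A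
  have hAκ : A * κ ≤ (A + 1) * κ := by nlinarith
  have hκA : κ ≤ (A + 1) * κ := by nlinarith
  set q : ℝ := (Fintype.card K : ℝ) with hq
  have hq2 : 2 ≤ q := by
    have : 2 ≤ Fintype.card K := Fintype.one_lt_card
    rw [hq]
    exact_mod_cast this
  have hq0 : 0 < q := by linarith
  have hq1 : 1 < q := by linarith
  have hb1 : 1 < q ^ (cw / 2) := Real.one_lt_rpow hq1 (by positivity)
  have hb2 : 1 < q ^ κ := Real.one_lt_rpow hq1 hκ0
  obtain ⟨n1, hn1⟩ := exp_large hb1 (C := 16) (by norm_num) hcv 1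
  obtain ⟨n2, hn2⟩ := exp_large hb2 (C := 8 * q) (by positivity) hcv 2
  obtain ⟨n4, hn4⟩ : ∃ n4 : ℕ, 1 / κ ≤ n4 := exists_nat_ge _
  refine ⟨κ, cv / 4, hκ0, by positivity, n1 + n2 + n4 + 1, ?_⟩
  intro n hn m L Q S G σ hlL hLn hQ c2' hS hσ
  have e1 := hn1 n (by omega)
  have e2 := hn2 n (by omega)
  have e4 : 1 ≤ κ * n := by
    have h5 : (n4 : ℝ) ≤ n := by exact_mod_cast (by omega : n4 ≤ n)
    have h6 : 1 / κ ≤ n := hn4.trans h5
    rw [div_le_iff₀ hκ0] at h6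
    linarith
  have hn0 : (0 : ℝ) ≤ n := Nat.cast_nonneg n
  have c2 : Q.natDegree + 2 * L ≤ m + 1 := by omega
  have hnpos' : (0 : ℝ) < n := by
    have : 0 < n := by omega
    exact_mod_cast this
  -- z
  obtain ⟨z, hz⟩ : ∃ z, z = ⌊κ * n⌋₊ := ⟨_, rfl⟩
  have hz1 : (z : ℝ) ≤ κ * n := by
    rw [hz]
    exact Nat.floor_le (by positivity)
  have hz2 : κ * n < z + 1 := by
    rw [hz]
    exact Nat.lt_floor_add_one _
  have hz3 : 1 ≤ z := by
    rw [hz]
    exact Nat.le_floor (by exact_mod_cast e4)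
  have hAzR : (A : ℝ) * z ≤ A * κ * n := by nlinarith
  have hAκn : A * κ * n ≤ (A + 1) * κ * n := mul_le_mul_of_nonneg_right hAκ hn0
  have k1n : (A + 1) * κ * n ≤ lam / 16 * n := mul_le_mul_of_nonneg_right k1 hn0
  have k2n : (A + 1) * κ * n ≤ κw * n := mul_le_mul_of_nonneg_right k2 hn0
  have k3n : (A + 1) * κ * n ≤ cw / 4 * n := mul_le_mul_of_nonneg_right k3 hn0
  have hκn : κ * n ≤ (A + 1) * κ * n := mul_le_mul_of_nonneg_right hκA hn0
  have hL0 : 0 ≤ lam * n := by positivity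
  have hLR : 16 * ((z : ℝ)) ≤ L := by linarith
  have hAzL : A * z ≤ L := by
    have : (A * z : ℝ) ≤ L := by linarith
    exact_mod_cast this
  have hzL : 16 * z ≤ L := by exact_mod_cast hLR
  have hzn : (z : ℝ) ≤ n := by
    have : z ≤ n := by omega
    exact_mod_cast this
  -- V
  obtain ⟨V, hV⟩ : ∃ V : ℝ, V = ∏ P ∈ (PU K z).filter (fun P => ¬ P ∣ Q),
    (1 - 1 / (Fintype.card K : ℝ) ^ P.natDegree) := ⟨_, rfl⟩
  have hloc : ∀ P ∈ PU K z, 0 ≤ 1 - 1 / (Fintype.card K : ℝ) ^ P.natDegree ∧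
      1 - 1 / (Fintype.card K : ℝ) ^ P.natDegree ≤ 1 := by
    intro P hP
    have h1 : (1 : ℝ) ≤ (Fintype.card K : ℝ) ^ P.natDegree := one_le_pow₀ (by rw [← hq]; linarith)
    have h2 : 1 / (Fintype.card K : ℝ) ^ P.natDegree ≤ 1 := by
      rw [div_le_one (by linarith)]
      exact h1
    have h3 : 0 ≤ 1 / (Fintype.card K : ℝ) ^ P.natDegree := by positivity
    exact ⟨by linarith, by linarith⟩
  have hV1 : cv / z ≤ V := by
    refine (Hv z hz3).trans ?_
    rw [hV, ← Finset.prod_filter_mul_prod_filter_not (PU K z) (fun P => ¬ P ∣ Q)]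
    refine mul_le_of_le_one_right (Finset.prod_nonneg fun P hP =>
      (hloc P (Finset.mem_filter.1 hP).1).1) (Finset.prod_le_one (fun P hP =>
      (hloc P (Finset.mem_filter.1 hP).1).1) fun P hP => (hloc P (Finset.mem_filter.1 hP).1).2)
  have hzpos : (0 : ℝ) < z := by
    have : 0 < z := by omega
    exact_mod_cast this
  have hV2 : cv / n ≤ V := le_trans (by gcongr) hV1
  have hV0 : 0 < V := lt_of_lt_of_le (by positivity) hV2
  have hqL : 0 < q ^ L := by positivity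
  -- B
  have hB1 : 2 * ((2 : ℝ) * Fintype.card K) ^ (A * z) * q ^ ((L : ℝ) - cw * n) ≤
      1 / 8 * V * (Fintype.card K : ℝ) ^ L := by
    rw [← hq]
    have b1 : (2 * q) ^ (A * z) ≤ q ^ (cw / 2 * n) := by
      have b2 : (2 * q) ^ (A * z) ≤ (q * q) ^ (A * z) := by gcongr
      refine b2.trans ?_
      rw [← sq, ← pow_mul, ← Real.rpow_natCast]
      refine Real.rpow_le_rpow_of_exponent_le hq1.le ?_
      push_cast
      linarith
    have b3 : q ^ ((L : ℝ) - cw * n) = q ^ L * (q ^ (cw / 2 * n))⁻¹ * (q ^ (cw / 2 * n))⁻¹ := by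
      rw [← Real.rpow_natCast, ← Real.rpow_neg hq0.le, ← Real.rpow_add hq0, ← Real.rpow_add hq0]
      congr 1
      ring
    have b4 : q ^ (cw / 2 * n) = (q ^ (cw / 2)) ^ n := by
      rw [← Real.rpow_natCast, ← Real.rpow_mul hq0.le]
    have b5 : 0 < q ^ (cw / 2 * n) := by positivity
    have b6 : 16 * (n : ℝ) ≤ cv * q ^ (cw / 2 * n) := by
      rw [b4]
      simpa using e1
    have b7 : 2 * (q ^ (cw / 2 * n))⁻¹ ≤ 1 / 8 * V := by
      have b8 : 2 * (q ^ (cw / 2 * n))⁻¹ ≤ 1 / 8 * (cv / n) := by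
        rw [← div_eq_mul_inv, div_le_iff₀ b5]
        have b9 : 1 / 8 * (cv / n) * q ^ (cw / 2 * n) = (cv * q ^ (cw / 2 * n)) / (8 * n) := by
          field_simp
        rw [b9, le_div_iff₀ (by positivity)]
        linarith
      linarith
    calc 2 * (2 * q) ^ (A * z) * q ^ ((L : ℝ) - cw * n)
        ≤ 2 * q ^ (cw / 2 * n) * q ^ ((L : ℝ) - cw * n) := by gcongr
      _ = (2 * (q ^ (cw / 2 * n))⁻¹) * q ^ L := by
          rw [b3]
          field_simp
      _ ≤ (1 / 8 * V) * q ^ L := by gcongr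
      _ = _ := by ring
  have hB2 : (n : ℝ) * (Fintype.card K : ℝ) ^ (L - z) ≤ 1 / 8 * V * (Fintype.card K : ℝ) ^ L := by
    rw [← hq]
    have b1 : q ^ L = q ^ (L - z) * q ^ z := by
      rw [← pow_add]
      congr 1
      omega
    have b2 : (q ^ κ) ^ n ≤ q ^ z * q := by
      rw [← pow_succ, ← Real.rpow_natCast, ← Real.rpow_natCast, ← Real.rpow_mul hq0.le]
      refine Real.rpow_le_rpow_of_exponent_le hq1.le ?_
      push_cast
      linarith
    have b3 : 8 * q * (n : ℝ) ^ 2 ≤ cv * (q ^ z * q) := e2.trans (by gcongr)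
    have b4 : 8 * (n : ℝ) ^ 2 ≤ cv * q ^ z := by
      have : q * (8 * (n : ℝ) ^ 2) ≤ q * (cv * q ^ z) := by linarith
      exact le_of_mul_le_mul_left this hq0
    have b5 : (n : ℝ) ≤ 1 / 8 * V * q ^ z := by
      have b6 : (n : ℝ) ≤ 1 / 8 * (cv / n) * q ^ z := by
        have b7 : 1 / 8 * (cv / n) * q ^ z = (cv * q ^ z) / (8 * n) := by
          field_simp
        rw [b7, le_div_iff₀ (by positivity)]
        linarith
      calc (n : ℝ) ≤ 1 / 8 * (cv / n) * q ^ z := b6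
        _ ≤ 1 / 8 * V * q ^ z := by gcongr
    rw [b1]
    calc (n : ℝ) * q ^ (L - z) ≤ (1 / 8 * V * q ^ z) * q ^ (L - z) := by gcongr
      _ = _ := by ring
  -- the windows
  have hex : ∀ s : K[X], ∃ F : K[X], s ∈ S → F.Monic ∧ F.natDegree = m ∧
      derivative (Q * F) = s ^ 2 ∧
        ∀ t : K[X], t.degree < (L : WithBot ℕ) → F + Q * t ^ 2 ∈ G := by
    intro s
    by_cases hs' : s ∈ S
    · obtain ⟨F, hF⟩ := (hS s hs').2.2.2.2.2.1
      exact ⟨F, fun _ => hF⟩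
    · exact ⟨0, fun h => absurd h hs'⟩
  choose Fs hFs using hex
  obtain ⟨p, hp⟩ : ∃ p : K[X] → Prop, ∀ f, p f ↔ (mob f = σ ∧ Sft z f) :=
    ⟨fun f => mob f = σ ∧ Sft z f, fun f => Iff.rfl⟩
  have hY : ∀ s ∈ S, 1 / 4 * V * q ^ L ≤
      ((Tn K L).filter (fun t => p (Fs s + Q * t ^ 2))).card := by
    intro s hs'
    have hE : (Tn K L).filter (fun t => p (Fs s + Q * t ^ 2)) = (Tn K L).filter
        (fun t => mob (Fs s + Q * t ^ 2) = σ ∧ Sft z (Fs s + Q * t ^ 2)) :=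
      Finset.filter_congr fun t _ => hp _
    rw [hE]
    obtain ⟨s1, s2, s4, s5, s6, -, s7⟩ := hS s hs'
    obtain ⟨f1, f2, f3, -⟩ := hFs s hs'
    refine window hr hA (B := q ^ ((L : ℝ) - cw * n)) (N := n) c2 hz3 (by omega) hAzL hQ rfl s6
      s1 s2 s5 f1 f2 f3 (by positivity) ?_ hV hB1 hB2 hσ
    intro F' D L' t1 t2 t3 t4 t5 t6
    refine s7 F' t1 t2 t3 D L' t4 ?_ t6
    have t7 : (D.natDegree : ℝ) ≤ (A * z : ℕ) := by exact_mod_cast t5
    push_cast at t7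
    linarith
  have h3 := fibres hQ.ne_zero S G Fs p
    (1 / 4 * V * q ^ L) (fun s hs' => ⟨(hFs s hs').2.2.1, (hFs s hs').2.2.2⟩) hY
  have hE : G.filter p = G.filter (fun f => mob f = σ ∧ Sft z f) :=
    Finset.filter_congr fun f _ => hp f
  rw [hE] at h3
  rw [← hz]
  refine le_trans ?_ h3
  calc cv / 4 * (S.card : ℝ) * q ^ L / n = (S.card : ℝ) * (1 / 4 * (cv / n) * q ^ L) := by ring
    _ ≤ (S.card : ℝ) * (1 / 4 * V * q ^ L) := by gcongr

end Pool.Agent.H560.SQ
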