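import Mathlib
import Pool.Agent.H560.SQ.WbK
import Pool.Agent.H560.SQ.T2H
import Pool.Agent.H560.SI.Ctr

/-!
# SQ, task T2K: both parities without small factors in all intervals near squares (helper560)
-/

set_option autoImplicit false

namespace Pool.Agent.H560.SQ

open Polynomial
open scoped Classical
open Pool.Agent.H985.Chow (mob)
open Pool.Agent.H985.Par (Sft)
open Pool.Agent.H694.Typ (Mn Irn PU mem_Mn)
open Pool.Agent.H560.SI (Smt SmI Itv Prs S_smA)
open Pool.Agent.H249.SI (dq dq_sq dq_dec deriv_sq deriv_G sq_inj')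

/-- the smooth polynomials of one interval -/
lemma smOne (hs : S_smA) (K : Type) [Field K] [Fintype K] (η δ : ℝ) (hη : 0 < η) (hδ : 0 < δ) :
    ∃ c : ℝ, 0 < c ∧ ∃ n₀ : ℕ, ∀ N : ℕ, n₀ ≤ N → ∀ (H y : ℕ) (S : K[X]),
      (1 + δ) * N ≤ 2 * (H : ℝ) → H ≤ N → η * N ≤ (y : ℝ) → S.Monic → S.natDegree = N →
      c * (Fintype.card K : ℝ) ^ H ≤ (SmI K N H y S).card := by
  have hq1 : (1 : ℝ) < Fintype.card K := by exact_mod_cast Fintype.one_lt_card
  obtain ⟨c, hc, n₀, hn₀⟩ := hs K η (min δ (1 / 2)) hη (by positivity)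
  refine ⟨c, hc, n₀, fun N hN H y S h1 h2 h3 hS hSN => ?_⟩
  have hN0 : (0 : ℝ) ≤ N := Nat.cast_nonneg N
  have hm1 : min δ (1 / 2) ≤ δ := min_le_left _ _
  have hm2 : min δ (1 / 2) ≤ 1 / 2 := min_le_right _ _
  have hp : Prs ({()} : Finset Unit) (fun _ => S) H = 1 := by
    unfold Prs
    simp
  obtain ⟨i, -, hi⟩ := hn₀ N hN H y Unit {()} (fun _ => S) (Finset.singleton_nonempty _)
    (by nlinarith) h2 h3 (fun _ _ => ⟨hS, hSN⟩) (by
      rw [hp, Finset.card_singleton, Nat.cast_one, mul_one, one_pow, one_mul, ← Real.rpow_natCast]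
      apply Real.rpow_le_rpow_of_exponent_le hq1.le
      push_cast
      nlinarith)
  exact hi

/-- the choice of the family of `s` -/
lemma data (hs : S_smA) (K : Type) [Field K] [Fintype K] (lam ε : ℝ) (hlam : 0 < lam) (hε : 0 < ε)
    (hε1 : ε ≤ 1) :
    ∃ c : ℝ, 0 < c ∧ ∃ n₀ : ℕ, ∀ n : ℕ, n₀ ≤ n → ∀ (d L : ℕ) (B : K[X]),
      lam * n ≤ (L : ℝ) → L ≤ d → B.degree < (d : WithBot ℕ) → (B.natDegree : ℝ) ≤ (2 - ε) * L + 1 →
      ∃ (γ : K) (N H : ℕ) (S : K[X]), γ ≠ 0 ∧ L ≤ N + 1 ∧ N < d ∧ N ≤ 2 * L + 1 ∧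
        (∀ s : K[X], s.Monic → s.natDegree = N → (s - S).degree < (H : WithBot ℕ) →
          (C γ * s - B).degree < (L : WithBot ℕ)) ∧
        c * (Fintype.card K : ℝ) ^ L ≤ (SmI K N H (L / 8) S).card := by
  have hq1 : (1 : ℝ) < Fintype.card K := by exact_mod_cast Fintype.one_lt_card
  have hq0 : (0 : ℝ) < Fintype.card K := by linarith
  obtain ⟨c, hc, n₀, hn₀⟩ := smOne hs K (1 / 64) (ε / 4) (by norm_num) (by positivity)
  obtain ⟨m1, hm1⟩ := exists_nat_gt (((n₀ : ℝ) + 64) / lam)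
  obtain ⟨m2, hm2⟩ := exists_nat_gt (8 / ε / lam)
  refine ⟨c / Fintype.card K, by positivity, m1 + m2 + 1, fun n hn d L B hL hLd hBd hB => ?_⟩
  have hL1 : (n₀ : ℝ) + 64 ≤ L := by
    have h1 : (m1 : ℝ) ≤ n := by exact_mod_cast (by omega : m1 ≤ n)
    have h2 : ((n₀ : ℝ) + 64) / lam ≤ n := hm1.le.trans h1
    rw [div_le_iff₀ hlam] at h2
    linarith
  have hL1' : n₀ + 64 ≤ L := by exact_mod_cast hL1
  have hL2 : 8 ≤ ε * L := by
    have h1 : (m2 : ℝ) ≤ n := by exact_mod_cast (by omega : m2 ≤ n)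
    have h2 : 8 / ε / lam ≤ n := hm2.le.trans h1
    rw [div_div, div_le_iff₀ (by positivity)] at h2
    have h3 : ε * (lam * n) ≤ ε * L := mul_le_mul_of_nonneg_left hL hε.le
    linarith
  have hy : ∀ N : ℕ, N ≤ 2 * L + 1 → 1 / 64 * (N : ℝ) ≤ ((L / 8 : ℕ) : ℝ) := by
    intro N hN
    have h1 : N ≤ 64 * (L / 8) := by omega
    have h2 : (N : ℝ) ≤ 64 * ((L / 8 : ℕ) : ℝ) := by exact_mod_cast h1
    linarith
  by_cases hBL : B.degree < (L : WithBot ℕ)
  · refine ⟨1, L - 1, L - 1, X ^ (L - 1), one_ne_zero, by omega, by omega, by omega, ?_, ?_⟩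
    · intro s hs1 hsN _
      rw [C_1, one_mul]
      refine (degree_sub_le _ _).trans_lt (max_lt ?_ hBL)
      rw [degree_eq_natDegree hs1.ne_zero, hsN]
      exact_mod_cast (by omega : L - 1 < L)
    · have h1 := hn₀ (L - 1) (by omega) (L - 1) (L / 8) (X ^ (L - 1)) (by
          have : (0 : ℝ) ≤ ((L - 1 : ℕ) : ℝ) := Nat.cast_nonneg _
          nlinarith) le_rfl (hy _ (by omega)) (monic_X_pow _) (natDegree_X_pow _)
      refine le_trans (le_of_eq ?_) h1
      have h2 : L = (L - 1) + 1 := by omega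
      conv_lhs => rw [h2, pow_succ]
      field_simp
  · rw [not_lt] at hBL
    have hB0 : B ≠ 0 := by
      intro h0
      rw [h0, degree_zero] at hBL
      exact absurd hBL (not_le.2 (WithBot.bot_lt_coe _))
    rw [degree_eq_natDegree hB0] at hBL hBd
    have hBL' : L ≤ B.natDegree := by exact_mod_cast hBL
    have hBd' : B.natDegree < d := by exact_mod_cast hBd
    have hlc : B.leadingCoeff ≠ 0 := leadingCoeff_ne_zero.2 hB0
    have hSm : (C B.leadingCoeff⁻¹ * B).Monic := by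
      rw [Monic, leadingCoeff_mul, leadingCoeff_C, inv_mul_cancel₀ hlc]
    have hSd : (C B.leadingCoeff⁻¹ * B).natDegree = B.natDegree := natDegree_C_mul (inv_ne_zero hlc)
    have hNL : B.natDegree ≤ 2 * L + 1 := by
      have h0 : (0 : ℝ) ≤ ε * L := by positivity
      have : (B.natDegree : ℝ) ≤ 2 * L + 1 := by nlinarith
      exact_mod_cast this
    refine ⟨B.leadingCoeff, B.natDegree, L, C B.leadingCoeff⁻¹ * B, hlc, by omega, hBd', hNL, ?_, ?_⟩
    · intro s _ _ hsS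
      have h1 : C B.leadingCoeff * s - B = C B.leadingCoeff * (s - C B.leadingCoeff⁻¹ * B) := by
        rw [mul_sub, ← mul_assoc, ← C_mul, mul_inv_cancel₀ hlc, C_1, one_mul]
      rw [h1, degree_C_mul hlc]
      exact hsS
    · have hN0 : (0 : ℝ) ≤ (B.natDegree : ℝ) := Nat.cast_nonneg _
      have h1 := hn₀ B.natDegree (by omega) L (L / 8) (C B.leadingCoeff⁻¹ * B) (by
          have h2 : ε / 4 * (B.natDegree : ℝ) ≤ ε / 4 * (2 * L + 1) := by
            apply mul_le_mul_of_nonneg_left _ (by positivity)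
            exact_mod_cast hNL
          nlinarith) hBL' (hy _ hNL) hSm hSd
      refine le_trans ?_ h1
      apply mul_le_mul_of_nonneg_right _ (by positivity)
      exact div_le_self hc.le hq1.le

section

variable {K : Type} [Field K] [Fintype K]

omit [Fintype K] in
lemma deg_sq_lt {t : K[X]} {L h : ℕ} (ht : t.degree < (L : WithBot ℕ)) (hh : 2 * L ≤ h + 1) : (t ^ 2).degree < (h : WithBot ℕ) := by
  by_cases h0 : t = 0
  · rw [h0, zero_pow two_ne_zero, degree_zero]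
    exact WithBot.bot_lt_coe _
  · rw [degree_eq_natDegree h0] at ht
    have h1 : t.natDegree < L := by exact_mod_cast ht
    rw [degree_pow, degree_eq_natDegree h0, nsmul_eq_mul]
    exact_mod_cast (by omega : 2 * t.natDegree < h)

omit [Fintype K] in
lemma deg_X_sq_lt {t : K[X]} {L h : ℕ} (ht : t.degree < (L : WithBot ℕ)) (hh : 2 * L ≤ h) :
    (X * t ^ 2).degree < (h : WithBot ℕ) := by
  by_cases h0 : t = 0
  · rw [h0, zero_pow two_ne_zero, mul_zero, degree_zero]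
    exact WithBot.bot_lt_coe _
  · rw [degree_eq_natDegree h0] at ht
    have h1 : t.natDegree < L := by exact_mod_cast ht
    have h2 : (X * t ^ 2).natDegree = 2 * t.natDegree + 1 := by
      rw [natDegree_X_mul (pow_ne_zero 2 h0), natDegree_pow]
    rw [degree_eq_natDegree (mul_ne_zero X_ne_zero (pow_ne_zero 2 h0)), h2]
    exact_mod_cast (by omega : 2 * t.natDegree + 1 < h)

lemma mem_itv {n h : ℕ} {F r : K[X]} (hF : F.Monic) (hFn : F.natDegree = n) (hh : h ≤ n)
    (hr : r.degree < (h : WithBot ℕ)) : F + r ∈ Itv K n h F := by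
  have hrn : r.degree < F.degree := by
    rw [degree_eq_natDegree hF.ne_zero, hFn]
    exact lt_of_lt_of_le hr (by exact_mod_cast hh)
  unfold Itv
  rw [Finset.mem_filter, mem_Mn]
  refine ⟨⟨hF.add_of_left hrn, ?_⟩, ?_⟩
  · rw [natDegree_add_eq_left_of_degree_lt hrn, hFn]
  · rw [add_sub_cancel_left]
    exact hr

end

/-- **Task T2K.** -/
theorem t2K (hw : S_wbK) (ht : S_t2H) (hs : S_smA) : S_t2K := by
  intro K _ _ _ ε₀ hε₀
  obtain ⟨ε, hε, hε1, hεε⟩ : ∃ ε : ℝ, 0 < ε ∧ ε ≤ 1 ∧ ε ≤ ε₀ :=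
    ⟨min ε₀ 1, by positivity, min_le_right _ _, min_le_left _ _⟩
  have hq1 : (1 : ℝ) < Fintype.card K := by exact_mod_cast Fintype.one_lt_card
  have hq0 : (0 : ℝ) < Fintype.card K := by linarith
  obtain ⟨lam, hlamd⟩ : ∃ lam : ℝ, lam = 1 / 12 := ⟨_, rfl⟩
  have hlam : 0 < lam := by rw [hlamd]; norm_num
  obtain ⟨κ₀, c₀, hκ₀, hc₀, n₁, hw1⟩ := hw K lam hlam
  obtain ⟨c₁, hc₁, n₂, hd1⟩ := data hs K lam ε hlam hε hε1
  obtain ⟨κ, c, hκ, hc, n₃, ht1⟩ := ht K lam κ₀ c₀ hlam hκ₀ hc₀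
  refine ⟨4 * κ, c * c₁ / (4 * Fintype.card K), by positivity, by positivity, n₁ + n₂ + n₃ + 12, ?_⟩
  intro h hn A R σ hA hhn hRn hRh hσ
  obtain ⟨d, hd⟩ : ∃ d, d = A.natDegree := ⟨_, rfl⟩
  obtain ⟨L, hL⟩ : ∃ L, L = h / 2 := ⟨_, rfl⟩
  obtain ⟨n, hn4⟩ : ∃ n, n = 4 * h := ⟨_, rfl⟩
  have hh0 : (0 : ℝ) < h := by exact_mod_cast (by omega : 0 < h)
  have hn0 : (0 : ℝ) < n := by exact_mod_cast (by omega : 0 < n)
  have hn4r : (n : ℝ) = 4 * h := by exact_mod_cast hn4
  have h2L : h ≤ 2 * L + 1 := by omega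
  have h2Lr : (h : ℝ) ≤ 2 * L + 1 := by exact_mod_cast h2L
  have hLn : lam * n ≤ (L : ℝ) := by
    have h1 : n ≤ 12 * L := by omega
    have h2 : (n : ℝ) ≤ 12 * L := by exact_mod_cast h1
    rw [hlamd]
    linarith
  obtain ⟨F₀, hF₀⟩ : ∃ F₀, F₀ = A ^ 2 + R := ⟨_, rfl⟩
  have hA2 : (A ^ 2).Monic := hA.pow 2
  have hA2d : (A ^ 2).natDegree = 2 * d := by rw [natDegree_pow, hd]
  have hRA : R.degree < (A ^ 2).degree := by
    rw [degree_eq_natDegree hA2.ne_zero, hA2d, hd]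
    exact hRn
  have hF₀m : F₀.Monic := by
    rw [hF₀]
    exact hA2.add_of_left hRA
  have hF₀d : F₀.natDegree = 2 * d := by
    rw [hF₀, natDegree_add_eq_left_of_degree_lt hRA, hA2d]
  obtain ⟨B, hB⟩ : ∃ B, B = dq F₀ := ⟨_, rfl⟩
  obtain ⟨Z, hZ⟩ := dq_dec F₀
  rw [← hB] at hZ
  have hBR : B ^ 2 = derivative R := by
    rw [hB, dq_sq, hF₀, derivative_add, deriv_sq, zero_add]
  have hBdeg : B ≠ 0 → 2 * B.natDegree + 1 ≤ R.natDegree := by
    intro hB0
    have h1 : 2 * B.natDegree = (derivative R).natDegree := by rw [← hBR, natDegree_pow]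
    have h2 : R.natDegree ≠ 0 := by
      intro h3
      have h4 : derivative R = 0 := derivative_of_natDegree_zero h3
      rw [← hBR] at h4
      exact hB0 (pow_eq_zero_iff two_ne_zero |>.1 h4)
    have h3 := natDegree_derivative_lt h2
    omega
  have hBd : B.degree < (d : WithBot ℕ) := by
    by_cases hB0 : B = 0
    · rw [hB0, degree_zero]
      exact WithBot.bot_lt_coe _
    · have h1 := hBdeg hB0
      have hR0 : R ≠ 0 := by
        intro h2
        rw [h2, natDegree_zero] at h1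
        omega
      rw [degree_eq_natDegree hR0] at hRn
      have h2 : R.natDegree < 2 * A.natDegree := by exact_mod_cast hRn
      rw [degree_eq_natDegree hB0]
      exact_mod_cast (by omega : B.natDegree < d)
  have hBL : (B.natDegree : ℝ) ≤ (2 - ε) * L + 1 := by
    by_cases hB0 : B = 0
    · rw [hB0, natDegree_zero, Nat.cast_zero]
      have : (0 : ℝ) ≤ (L : ℝ) := Nat.cast_nonneg _
      nlinarith
    · have h1 : 2 * (B.natDegree : ℝ) + 1 ≤ R.natDegree := by exact_mod_cast hBdeg hB0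
      have h2 : (2 - ε₀) * (h : ℝ) ≤ (2 - ε) * h := by
        apply mul_le_mul_of_nonneg_right (by linarith) (Nat.cast_nonneg _)
      have h3 : (2 - ε) * (h : ℝ) ≤ (2 - ε) * (2 * L + 1) :=
        mul_le_mul_of_nonneg_left h2Lr (by linarith)
      nlinarith
  obtain ⟨γ, N, H, S, hγ, hLN, hNd, hN2, hsB, hcard⟩ := hd1 n (by omega) d L B hLn (by omega)
    hBd hBL
  obtain ⟨AA, hAA⟩ : ∃ AA : Finset K[X], AA = (SmI K N H (L / 8) S).image (fun s => C γ * s) :=
    ⟨_, rfl⟩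
  have hAAc : AA.card = (SmI K N H (L / 8) S).card := by
    rw [hAA]
    apply Finset.card_image_of_injective
    intro x y hxy
    exact mul_left_cancel₀ (C_ne_zero.2 hγ) hxy
  have hmain := ht1 n (by omega) (2 * d) L 1 AA (Itv K (2 * d) h F₀) σ hLn (by omega) monic_one (by
    rw [natDegree_one]
    omega) ?_ hσ
  · have e0 : κ * (n : ℝ) = 4 * κ * h := by rw [hn4r]; ring
    rw [e0] at hmain
    rw [← hF₀, ← hd]
    refine le_trans ?_ hmain
    rw [hAAc, hn4r]
    have h1 : (Fintype.card K : ℝ) ^ h ≤ Fintype.card K * ((Fintype.card K : ℝ) ^ L *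
        (Fintype.card K : ℝ) ^ L) := by
      rw [← pow_add, mul_comm, ← pow_succ]
      exact pow_le_pow_right₀ hq1.le (by omega)
    have h2 : c * c₁ / (4 * Fintype.card K) * (Fintype.card K : ℝ) ^ h ≤
        c * c₁ / (4 * Fintype.card K) * (Fintype.card K * ((Fintype.card K : ℝ) ^ L *
        (Fintype.card K : ℝ) ^ L)) := mul_le_mul_of_nonneg_left h1 (by positivity)
    have h3 : c * c₁ / (4 * Fintype.card K) * (Fintype.card K * ((Fintype.card K : ℝ) ^ L *
        (Fintype.card K : ℝ) ^ L)) = c * (c₁ * (Fintype.card K : ℝ) ^ L) *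
        (Fintype.card K : ℝ) ^ L / 4 := by
      field_simp
    have h4 : c * (c₁ * (Fintype.card K : ℝ) ^ L) * (Fintype.card K : ℝ) ^ L / 4 ≤
        c * ((SmI K N H (L / 8) S).card : ℝ) * (Fintype.card K : ℝ) ^ L / 4 := by
      apply div_le_div_of_nonneg_right _ (by norm_num)
      exact mul_le_mul_of_nonneg_right (mul_le_mul_of_nonneg_left hcard hc.le) (by positivity)
    have h5 : c * ((SmI K N H (L / 8) S).card : ℝ) * (Fintype.card K : ℝ) ^ L / (4 * (h : ℝ)) =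
        c * ((SmI K N H (L / 8) S).card : ℝ) * (Fintype.card K : ℝ) ^ L / 4 / h := by rw [div_div]
    rw [h5]
    apply div_le_div_of_nonneg_right _ hh0.le
    rw [h3] at h2
    exact h2.trans h4
  · intro s' hs'
    rw [hAA, Finset.mem_image] at hs'
    obtain ⟨s, hsm, rfl⟩ := hs'
    unfold SmI at hsm
    rw [Finset.mem_filter, mem_Mn] at hsm
    obtain ⟨⟨hs1, hsN⟩, hsS, hsq, hsmt⟩ := hsm
    have hunit : IsUnit (C γ : K[X]) := isUnit_C.2 (isUnit_iff_ne_zero.2 hγ)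
    refine ⟨mul_ne_zero (C_ne_zero.2 hγ) hs1.ne_zero, ?_, ?_, ?_, isCoprime_one_left, ?_, ?_⟩
    · rw [natDegree_C_mul hγ, hsN]
      omega
    · exact hsq.squarefree_of_dvd ((hunit.mul_left_dvd).2 dvd_rfl)
    · intro P hP1 hP2 hP3
      exact hsmt P hP1 hP2 ((hunit.dvd_mul_left).1 hP3)
    · refine ⟨Z ^ 2 + X * (C γ * s) ^ 2, ?_⟩
      have hdl := hsB s hs1 hsN hsS
      have e1 : Z ^ 2 + X * (C γ * s) ^ 2 = F₀ + X * (C γ * s - B) ^ 2 := by
        rw [hZ, CharTwo.sub_eq_add, CharTwo.add_sq]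
        have h2 : (2 : K[X]) = 0 := CharTwo.two_eq_zero
        linear_combination (- X * B ^ 2) * h2
      have e2 := deg_X_sq_lt hdl (show 2 * L ≤ h by omega)
      have e3 : ∀ t : K[X], t.degree < (L : WithBot ℕ) →
          (X * (C γ * s - B) ^ 2 + t ^ 2).degree < (h : WithBot ℕ) := by
        intro t ht
        refine (degree_add_le _ _).trans_lt (max_lt e2 ?_)
        exact deg_sq_lt ht (by omega)
      have e4 := mem_itv hF₀m hF₀d (show h ≤ 2 * d by omega) e2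
      rw [← e1] at e4
      unfold Itv at e4
      rw [Finset.mem_filter, mem_Mn] at e4
      refine ⟨e4.1.1, e4.1.2, ?_, ?_⟩
      · rw [one_mul, deriv_G]
      · intro t ht
        rw [e1, one_mul, add_assoc]
        exact mem_itv hF₀m hF₀d (by omega) (e3 t ht)
    · intro F hF hFn hder D L' hD hDd hDL
      rw [one_mul] at hder
      have h1 := hw1 n (by omega) d L L' γ s F D (by omega) (by omega) (by omega) hLn hγ hs1 hsq hsmt
        hF hFn hder hD hDd hDL
      simpa only [one_mul] using h1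

end Pool.Agent.H560.SQ
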