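import Mathlib
import Pool.Agent.H560.SI.Top
import Pool.Agent.H560.SQ.T2K
import Pool.Agent.H969.SQ.RTI
import Pool.Agent.H524.SQ.KeyB
import Pool.Agent.H980.SQ.AddI
import Pool.Agent.H560.SQ.WinI
import Pool.Agent.H980.SQ.SqW
import Pool.Agent.H118.SQ.Sq
import Pool.Agent.H553.SQ.CntSq
import Pool.Agent.H955.SQ.Lam
import Pool.Agent.H348.AR.RtQ
import Pool.Agent.H985.FC.Full
import Pool.Agent.H385.SI.SMA
import Pool.Agent.H553.SI.PrdA

/-!
# Around squares, `q` even: the theorems (helper560)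
-/

set_option autoImplicit false

namespace Pool.Agent.H560.SQ

open Polynomial
open scoped Classical
open Pool.Agent.H985.Chow (mob)
open Pool.Agent.H985.Par (Sft)
open Pool.Agent.H694.Typ (mem_Mn)
open Pool.Agent.H560.SI (Itv mob_one_iff mob_neg_one_iff sft_iff ncard_itv itv_coe)

theorem s_winI : S_winI :=
  Pool.Agent.H560.SQ.W.winI (Pool.Agent.H524.SQ.keyI Pool.Agent.H985.Chow.sgn Pool.Agent.H969.SQ.rtI)
    Pool.Agent.H980.SQ.addI

theorem s_sq : S_sq := Pool.Agent.H118.SQ.sq (Pool.Agent.H980.SQ.sqW s_winI) Pool.Agent.H985.KP.typ2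

theorem s_lam : S_lam := Pool.Agent.H955.SQ.lam s_sq

theorem s_t2K : S_t2K :=
  t2K (wbK Pool.Agent.H297.SI.grp s_winI Pool.Agent.H985.FC.win4s)
    (t2H Pool.Agent.H348.AR.rtQ Pool.Agent.H155.SI.vl Pool.Agent.H985.Par.s_sw)
    (Pool.Agent.H385.SI.smA Pool.Agent.H553.SI.prdA)

/-- **Both parities without small factors in all intervals near squares.** -/
theorem near_top (K : Type) [Field K] [Fintype K] [CharP K 2] (ε : ℝ) (hε : 0 < ε) :
    ∃ κ c : ℝ, 0 < κ ∧ 0 < c ∧ ∃ h₀ : ℕ, ∀ h : ℕ, h₀ ≤ h → ∀ A R : K[X], A.Monic →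
      h ≤ 2 * A.natDegree → R.degree < ((2 * A.natDegree : ℕ) : WithBot ℕ) →
      (R.natDegree : ℝ) ≤ (2 - ε) * h →
        c * (Fintype.card K : ℝ) ^ h / h ≤
          {f : K[X] | (f - (A ^ 2 + R)).degree < (h : WithBot ℕ) ∧ Squarefree f ∧
            Odd (Multiset.card (UniqueFactorizationMonoid.factors f)) ∧
            ∀ P : K[X], Irreducible P → P ∣ f → κ * h < (P.natDegree : ℝ)}.ncard ∧
        c * (Fintype.card K : ℝ) ^ h / h ≤
          {f : K[X] | (f - (A ^ 2 + R)).degree < (h : WithBot ℕ) ∧ Squarefree f ∧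
            Even (Multiset.card (UniqueFactorizationMonoid.factors f)) ∧
            ∀ P : K[X], Irreducible P → P ∣ f → κ * h < (P.natDegree : ℝ)}.ncard := by
  obtain ⟨κ, c, hκ, hc, h₀, hh₀⟩ := s_t2K K ε hε
  refine ⟨κ, c, hκ, hc, h₀, fun h hh A R hA hhA hR hRh => ?_⟩
  have hfl : ∀ f : K[X], Sft ⌊κ * (h : ℝ)⌋₊ f ↔
      ∀ P : K[X], Irreducible P → P ∣ f → κ * h < (P.natDegree : ℝ) := by
    intro f
    rw [sft_iff]
    have h0 : 0 ≤ κ * (h : ℝ) := by positivity
    exact forall_congr' fun P => imp_congr_right fun _ => imp_congr_right fun _ => Nat.floor_lt h0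
  have hA2 : (A ^ 2).Monic := hA.pow 2
  have hA2d : (A ^ 2).natDegree = 2 * A.natDegree := by rw [natDegree_pow]
  have hRA : R.degree < (A ^ 2).degree := by
    rw [degree_eq_natDegree hA2.ne_zero, hA2d]
    exact hR
  have hFm : (A ^ 2 + R).Monic := hA2.add_of_left hRA
  have hFd : (A ^ 2 + R).natDegree = 2 * A.natDegree := by
    rw [natDegree_add_eq_left_of_degree_lt hRA, hA2d]
  constructor
  · have h1 := hh₀ h hh A R (-1) hA hhA hR hRh (Or.inr rfl)
    rw [← ncard_itv hhA hFm hFd] at h1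
    refine h1.trans (le_of_eq ?_)
    congr 2
    ext f
    simp only [Set.mem_ofPred_eq, mob_neg_one_iff, hfl, and_assoc]
  · have h1 := hh₀ h hh A R 1 hA hhA hR hRh (Or.inl rfl)
    rw [← ncard_itv hhA hFm hFd] at h1
    refine h1.trans (le_of_eq ?_)
    congr 2
    ext f
    simp only [Set.mem_ofPred_eq, mob_one_iff, hfl, and_assoc]

section

variable {K : Type} [Field K] [Fintype K]

/-- sums over the interval around `A²` -/
lemma sum_itv {h : ℕ} {A : K[X]} (hA : A.Monic) (hh : h ≤ 2 * A.natDegree) (G : K[X] → ℝ) :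
    ∑ᶠ δ ∈ {δ : K[X] | δ.degree < (h : WithBot ℕ)}, G (A ^ 2 + δ) =
      ∑ f ∈ Itv K (2 * A.natDegree) h (A ^ 2), G f := by
  have hA2 : (A ^ 2).Monic := hA.pow 2
  have hA2d : (A ^ 2).natDegree = 2 * A.natDegree := by rw [natDegree_pow]
  rw [← finsum_mem_coe_finset, itv_coe hh hA2 hA2d]
  refine finsum_mem_eq_of_bijOn (fun δ => A ^ 2 + δ) ?_ (fun _ _ => rfl)
  refine ⟨?_, ?_, ?_⟩
  · intro δ hδ
    show (A ^ 2 + δ - A ^ 2).degree < (h : WithBot ℕ)
    rw [add_sub_cancel_left]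
    exact hδ
  · intro x _ y _ hxy
    exact add_left_cancel hxy
  · intro f hf
    exact ⟨f - A ^ 2, hf, by ring⟩

/-- the number of elements of the interval -/
lemma card_itv {h : ℕ} {A : K[X]} (hA : A.Monic) (hh : h ≤ 2 * A.natDegree) :
    ((Itv K (2 * A.natDegree) h (A ^ 2)).card : ℝ) = (Fintype.card K : ℝ) ^ h := by
  have h1 := sum_itv hA hh (fun _ => (1 : ℝ))
  rw [Finset.sum_const, nsmul_eq_mul, mul_one] at h1
  rw [← h1]
  rw [Pool.Agent.H985.Chow.Asm.window_finsum, Finset.sum_const, Finset.card_univ,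
    Pool.Agent.H985.Chow.Asm.card_deg, nsmul_eq_mul, mul_one]
  push_cast
  rfl

/-- the sets of the theorem -/
lemma ncard_sq {h : ℕ} {A : K[X]} (hA : A.Monic) (hh : h ≤ 2 * A.natDegree) (p : K[X] → Prop)
    [DecidablePred p] :
    ({f : K[X] | (f - A ^ 2).degree < (h : WithBot ℕ) ∧ p f}.ncard : ℝ) =
      ∑ f ∈ Itv K (2 * A.natDegree) h (A ^ 2), if p f then (1 : ℝ) else 0 := by
  rw [ncard_itv hh (hA.pow 2) (by rw [natDegree_pow]) p, Finset.card_filter]
  push_cast
  rfl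

omit [Fintype K] in
lemma lio_eq (f : K[X]) : (lio f : ℝ) =
    1 - 2 * (if Odd (Multiset.card (UniqueFactorizationMonoid.factors f)) then (1 : ℝ) else 0) := by
  unfold lio
  split_ifs with h1
  · rw [h1.neg_one_pow]
    norm_num
  · rw [Nat.not_odd_iff_even] at h1
    rw [h1.neg_one_pow]
    norm_num

omit [Fintype K] in
lemma mob_odd (f : K[X]) : (mob f : ℝ) = (if Squarefree f then (1 : ℝ) else 0) -
    2 * (if Squarefree f ∧ Odd (Multiset.card (UniqueFactorizationMonoid.factors f)) then (1 : ℝ)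
      else 0) := by
  unfold mob
  by_cases h0 : Squarefree f
  · by_cases h1 : Odd (Multiset.card (UniqueFactorizationMonoid.factors f))
    · rw [if_pos h0, if_pos h0, if_pos ⟨h0, h1⟩, h1.neg_one_pow]
      norm_num
    · rw [if_pos h0, if_pos h0, if_neg (fun h2 => h1 h2.2)]
      rw [Nat.not_odd_iff_even] at h1
      rw [h1.neg_one_pow]
      norm_num
  · rw [if_neg h0, if_neg h0, if_neg (fun h2 => h0 h2.1)]
    norm_num

omit [Fintype K] in
lemma mob_even (f : K[X]) : (mob f : ℝ) = 2 * (if Squarefree f ∧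
    Even (Multiset.card (UniqueFactorizationMonoid.factors f)) then (1 : ℝ) else 0) -
      (if Squarefree f then (1 : ℝ) else 0) := by
  unfold mob
  by_cases h0 : Squarefree f
  · by_cases h1 : Even (Multiset.card (UniqueFactorizationMonoid.factors f))
    · rw [if_pos h0, if_pos h0, if_pos ⟨h0, h1⟩, h1.neg_one_pow]
      norm_num
    · rw [if_pos h0, if_pos h0, if_neg (fun h2 => h1 h2.2)]
      rw [Nat.not_even_iff_odd] at h1
      rw [h1.neg_one_pow]
      norm_num
  · rw [if_neg h0, if_neg h0, if_neg (fun h2 => h0 h2.1)]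
    norm_num

end

/-- **Equidistribution of the parity around every square.** -/
theorem square_top (K : Type) [Field K] [Fintype K] [CharP K 2] (ε : ℝ) (hε : 0 < ε) :
    ∃ h₀ : ℕ, ∀ h : ℕ, h₀ ≤ h → ∀ A : K[X], A.Monic → h ≤ 2 * A.natDegree →
      |({f : K[X] | (f - A ^ 2).degree < (h : WithBot ℕ) ∧
          Odd (Multiset.card (UniqueFactorizationMonoid.factors f))}.ncard : ℝ) -
        1 / 2 * (Fintype.card K : ℝ) ^ h| ≤ ε * (Fintype.card K : ℝ) ^ h ∧
      |({f : K[X] | (f - A ^ 2).degree < (h : WithBot ℕ) ∧ Squarefree f ∧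
          Odd (Multiset.card (UniqueFactorizationMonoid.factors f))}.ncard : ℝ) -
        1 / 2 * (1 - 1 / (Fintype.card K : ℝ)) * (Fintype.card K : ℝ) ^ h| ≤
          ε * (Fintype.card K : ℝ) ^ h ∧
      |({f : K[X] | (f - A ^ 2).degree < (h : WithBot ℕ) ∧ Squarefree f ∧
          Even (Multiset.card (UniqueFactorizationMonoid.factors f))}.ncard : ℝ) -
        1 / 2 * (1 - 1 / (Fintype.card K : ℝ)) * (Fintype.card K : ℝ) ^ h| ≤
          ε * (Fintype.card K : ℝ) ^ h := by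
  obtain ⟨h₁, hh₁⟩ := s_lam K ε hε
  obtain ⟨h₂, hh₂⟩ := s_sq K ε hε
  refine ⟨max (max h₁ h₂) 4, fun h hh A hA hhA => ?_⟩
  have hm1 : h₁ ≤ h := ((le_max_left _ _).trans (le_max_left _ _)).trans hh
  have hm2 : h₂ ≤ h := ((le_max_right _ _).trans (le_max_left _ _)).trans hh
  have hm3 : 4 ≤ h := (le_max_right _ _).trans hh
  have e1 := hh₁ h hm1 A hA hhA
  have e2 := hh₂ h hm2 A hA hhA
  rw [sum_itv hA hhA (fun f => (lio f : ℝ))] at e1
  rw [sum_itv hA hhA (fun f => (mob f : ℝ))] at e2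
  have e3 := Pool.Agent.H553.SQ.cntSq K h A hm3 hhA hA
  have e4 := card_itv hA hhA
  have e5 : (((Itv K (2 * A.natDegree) h (A ^ 2)).filter Squarefree).card : ℝ) =
      ∑ f ∈ Itv K (2 * A.natDegree) h (A ^ 2), if Squarefree f then (1 : ℝ) else 0 := by
    rw [Finset.card_filter]
    push_cast
    rfl
  have e6 : ((Itv K (2 * A.natDegree) h (A ^ 2)).card : ℝ) =
      ∑ f ∈ Itv K (2 * A.natDegree) h (A ^ 2), (1 : ℝ) := by
    rw [Finset.sum_const, nsmul_eq_mul, mul_one]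
  rw [ncard_sq hA hhA, ncard_sq hA hhA, ncard_sq hA hhA]
  refine ⟨?_, ?_, ?_⟩
  · rw [Finset.sum_congr rfl (fun f _ => lio_eq f), Finset.sum_sub_distrib, ← e6, e4,
      ← Finset.mul_sum] at e1
    rw [abs_le] at e1 ⊢
    have hq : 0 ≤ ε * (Fintype.card K : ℝ) ^ h := by positivity
    constructor <;> linarith [e1.1, e1.2]
  · rw [Finset.sum_congr rfl (fun f _ => mob_odd f), Finset.sum_sub_distrib, ← e5, e3,
      ← Finset.mul_sum] at e2
    rw [abs_le] at e2 ⊢
    have hq : 0 ≤ ε * (Fintype.card K : ℝ) ^ h := by positivity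
    constructor <;> linarith [e2.1, e2.2]
  · rw [Finset.sum_congr rfl (fun f _ => mob_even f), Finset.sum_sub_distrib, ← e5, e3,
      ← Finset.mul_sum] at e2
    rw [abs_le] at e2 ⊢
    have hq : 0 ≤ ε * (Fintype.card K : ℝ) ^ h := by positivity
    constructor <;> linarith [e2.1, e2.2]

end Pool.Agent.H560.SQ
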