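import Mathlib
import Pool.Agent.H560.SQ.StmC
import Pool.Agent.H560.SQ.Final

/-!
# Around squares, `q` even: the asymptotic formula for sifted polynomials with a parity (helper560)
-/

set_option autoImplicit false

namespace Pool.Agent.H560.SQ

open Polynomial
open scoped Classical
open Pool.Agent.H985.Chow (mob)
open Pool.Agent.H985.Par (Sft)
open Pool.Agent.H694.Typ (mem_Mn PU mem_PU)
open Pool.Agent.H560.SI (Itv mob_one_iff mob_neg_one_iff sft_iff ncard_itv itv_coe)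

section

variable {K : Type} [Field K] [Fintype K]

/-- sums over the sifted set -/
lemma sum_sft {h z : ℕ} {A : K[X]} (hA : A.Monic) (hh : h ≤ 2 * A.natDegree) (G : K[X] → ℝ) :
    ∑ᶠ δ ∈ {δ : K[X] | δ.degree < (h : WithBot ℕ) ∧ Sft z (A ^ 2 + δ)}, G (A ^ 2 + δ) =
      ∑ f ∈ (Itv K (2 * A.natDegree) h (A ^ 2)).filter (fun f => Sft z f), G f := by
  have hA2 : (A ^ 2).Monic := hA.pow 2
  have hA2d : (A ^ 2).natDegree = 2 * A.natDegree := by rw [natDegree_pow]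
  have hmem : ∀ f : K[X], f ∈ Itv K (2 * A.natDegree) h (A ^ 2) ↔
      (f - A ^ 2).degree < (h : WithBot ℕ) := by
    intro f
    have h1 := itv_coe (K := K) hh hA2 hA2d
    rw [← Finset.mem_coe, h1]
    rfl
  rw [← finsum_mem_coe_finset]
  refine finsum_mem_eq_of_bijOn (fun δ => A ^ 2 + δ) ?_ (fun _ _ => rfl)
  refine ⟨?_, ?_, ?_⟩
  · rintro δ ⟨h1, h2⟩
    rw [Finset.mem_coe, Finset.mem_filter, hmem]
    refine ⟨?_, h2⟩
    show (A ^ 2 + δ - A ^ 2).degree < (h : WithBot ℕ)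
    rw [add_sub_cancel_left]
    exact h1
  · intro x _ y _ hxy
    exact add_left_cancel hxy
  · intro f hf
    rw [Finset.mem_coe, Finset.mem_filter, hmem] at hf
    have e1 : A ^ 2 + (f - A ^ 2) = f := by ring
    refine ⟨f - A ^ 2, ⟨hf.1, ?_⟩, e1⟩
    rw [e1]
    exact hf.2

omit [Fintype K] in
lemma mob_val (f : K[X]) : (Squarefree f ∧ (mob f = 1 ∨ mob f = -1)) ∨
    (¬ Squarefree f ∧ mob f = 0) := by
  by_cases h4 : Squarefree f
  · left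
    refine ⟨h4, ?_⟩
    unfold mob
    rw [if_pos h4]
    exact neg_one_pow_eq_or ℤ _
  · right
    refine ⟨h4, ?_⟩
    unfold mob
    rw [if_neg h4]

omit [Fintype K] in
/-- the number of the elements with a given value -/
lemma count_val (S : Finset K[X]) (p : K[X] → Prop) [DecidablePred p] (σ : ℤ) (hσ : σ = 1 ∨ σ = -1) :
    2 * ((S.filter (fun f => mob f = σ ∧ p f)).card : ℝ) =
      ((S.filter (fun f => p f)).card : ℝ) - ((S.filter (fun f => p f ∧ ¬ Squarefree f)).card : ℝ) +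
        (σ : ℝ) * ∑ f ∈ S.filter (fun f => p f), (mob f : ℝ) := by
  have e1 : ∀ (r : K[X] → Prop) [DecidablePred r], ((S.filter r).card : ℝ) =
      ∑ f ∈ S, if r f then (1 : ℝ) else 0 := by
    intro r _
    rw [Finset.card_filter]
    push_cast
    rfl
  rw [e1, e1, e1, Finset.sum_filter, Finset.mul_sum, Finset.mul_sum, ← Finset.sum_sub_distrib,
    ← Finset.sum_add_distrib]
  refine Finset.sum_congr rfl fun f _ => ?_
  by_cases hp : p f
  · rcases mob_val f with ⟨h5, h6 | h6⟩ | ⟨h5, h6⟩ <;> rcases hσ with h7 | h7 <;>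
      simp [hp, h5, h6, h7] <;> norm_num
  · simp [hp]

end

/-- **The asymptotic formula.** -/
theorem t3 (hsum : S_sumR) (hcnt : S_cntR) (K : Type) [Field K] [Fintype K] [CharP K 2] (ε : ℝ)
    (hε : 0 < ε) :
    ∃ κ₀ : ℝ, 0 < κ₀ ∧ ∀ κ : ℝ, 0 < κ → κ ≤ κ₀ → ∃ h₀ : ℕ, ∀ h : ℕ, h₀ ≤ h → ∀ (A : K[X]) (σ : ℤ),
      A.Monic → h ≤ 2 * A.natDegree → (σ = 1 ∨ σ = -1) →
      |(((Itv K (2 * A.natDegree) h (A ^ 2)).filter
          (fun f => mob f = σ ∧ Sft ⌊κ * h⌋₊ f)).card : ℝ) -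
        1 / 2 * VV K ⌊κ * h⌋₊ * (Fintype.card K : ℝ) ^ h| ≤
          ε * VV K ⌊κ * h⌋₊ * (Fintype.card K : ℝ) ^ h := by
  obtain ⟨κ₁, hκ₁, h1⟩ := hsum K (ε / 2) (half_pos hε)
  obtain ⟨κ₂, hκ₂, h2⟩ := hcnt K (ε / 2) (half_pos hε)
  refine ⟨min κ₁ κ₂, lt_min hκ₁ hκ₂, fun κ hκ hκm => ?_⟩
  obtain ⟨n₁, h1⟩ := h1 κ hκ (hκm.trans (min_le_left _ _))
  obtain ⟨n₂, h2⟩ := h2 κ hκ (hκm.trans (min_le_right _ _))
  refine ⟨max n₁ n₂, fun h hh A σ hA hhA hσ => ?_⟩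
  have e1 := h1 h ((le_max_left _ _).trans hh) A hA hhA
  obtain ⟨e2, e3⟩ := h2 h ((le_max_right _ _).trans hh) A hA hhA
  rw [sum_sft hA hhA (fun f => (mob f : ℝ))] at e1
  have e4 := count_val (Itv K (2 * A.natDegree) h (A ^ 2)) (fun f => Sft ⌊κ * h⌋₊ f) σ hσ
  have e5 : (0 : ℝ) ≤ (((Itv K (2 * A.natDegree) h (A ^ 2)).filter
      (fun f => Sft ⌊κ * h⌋₊ f ∧ ¬ Squarefree f)).card : ℝ) := Nat.cast_nonneg _
  obtain ⟨W, hW⟩ : ∃ W, W = VV K ⌊κ * h⌋₊ * (Fintype.card K : ℝ) ^ h := ⟨_, rfl⟩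
  rw [mul_assoc, ← hW] at e1 e3
  rw [mul_assoc (ε / 2), ← hW] at e2
  rw [mul_assoc, mul_assoc, ← hW]
  have hσ1 : |(σ : ℝ) * ∑ f ∈ (Itv K (2 * A.natDegree) h (A ^ 2)).filter
      (fun f => Sft ⌊κ * h⌋₊ f), (mob f : ℝ)| ≤ ε / 2 * W := by
    rw [abs_mul]
    have : |(σ : ℝ)| = 1 := by rcases hσ with h | h <;> rw [h] <;> norm_num
    rw [this, one_mul]
    exact e1
  rw [abs_le] at hσ1 e2 ⊢
  have hW0 : 0 ≤ ε / 2 * W := e5.trans e3
  constructor <;> linarith [hσ1.1, hσ1.2, e2.1, e2.2]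

/-- Mertens' product over the monic irreducible polynomials of degree at most `y`. -/
noncomputable def Vy (K : Type) [Field K] [Fintype K] (y : ℝ) : ℝ :=
  ∏ᶠ P ∈ {P : K[X] | P.Monic ∧ Irreducible P ∧ (P.natDegree : ℝ) ≤ y},
    (1 - 1 / (Fintype.card K : ℝ) ^ P.natDegree)

lemma Vy_eq (K : Type) [Field K] [Fintype K] {y : ℝ} (hy : 0 ≤ y) : Vy K y = VV K ⌊y⌋₊ := by
  unfold Vy VV
  rw [← finprod_mem_coe_finset]
  have h1 : {P : K[X] | P.Monic ∧ Irreducible P ∧ (P.natDegree : ℝ) ≤ y} =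
      ((PU K ⌊y⌋₊ : Finset K[X]) : Set K[X]) := by
    ext P
    rw [Finset.mem_coe, mem_PU, Nat.le_floor_iff hy]
    rfl
  rw [h1]

/-- **The asymptotic formula around every square.** -/
theorem sifted_top (hsum : S_sumR) (hcnt : S_cntR) (K : Type) [Field K] [Fintype K] [CharP K 2]
    (ε : ℝ) (hε : 0 < ε) :
    ∃ κ₀ : ℝ, 0 < κ₀ ∧ ∀ κ : ℝ, 0 < κ → κ ≤ κ₀ → ∃ h₀ : ℕ, ∀ h : ℕ, h₀ ≤ h → ∀ A : K[X], A.Monic →
      h ≤ 2 * A.natDegree →
      |({f : K[X] | (f - A ^ 2).degree < (h : WithBot ℕ) ∧ Squarefree f ∧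
          Odd (Multiset.card (UniqueFactorizationMonoid.factors f)) ∧
          ∀ P : K[X], Irreducible P → P ∣ f → κ * h < (P.natDegree : ℝ)}.ncard : ℝ) -
        1 / 2 * Vy K (κ * h) * (Fintype.card K : ℝ) ^ h| ≤
          ε * Vy K (κ * h) * (Fintype.card K : ℝ) ^ h ∧
      |({f : K[X] | (f - A ^ 2).degree < (h : WithBot ℕ) ∧ Squarefree f ∧
          Even (Multiset.card (UniqueFactorizationMonoid.factors f)) ∧
          ∀ P : K[X], Irreducible P → P ∣ f → κ * h < (P.natDegree : ℝ)}.ncard : ℝ) -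
        1 / 2 * Vy K (κ * h) * (Fintype.card K : ℝ) ^ h| ≤
          ε * Vy K (κ * h) * (Fintype.card K : ℝ) ^ h := by
  obtain ⟨κ₀, hκ₀, h1⟩ := t3 hsum hcnt K ε hε
  refine ⟨κ₀, hκ₀, fun κ hκ hκ' => ?_⟩
  obtain ⟨h₀, h2⟩ := h1 κ hκ hκ'
  refine ⟨h₀, fun h hh A hA hhA => ?_⟩
  have hκh : 0 ≤ κ * (h : ℝ) := by positivity
  have hfl : ∀ f : K[X], Sft ⌊κ * (h : ℝ)⌋₊ f ↔
      ∀ P : K[X], Irreducible P → P ∣ f → κ * h < (P.natDegree : ℝ) := by
    intro f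
    rw [sft_iff]
    exact forall_congr' fun P => imp_congr_right fun _ => imp_congr_right fun _ => Nat.floor_lt hκh
  have hA2 : (A ^ 2).Monic := hA.pow 2
  have hA2d : (A ^ 2).natDegree = 2 * A.natDegree := by rw [natDegree_pow]
  have e1 := h2 h hh A (-1) hA hhA (Or.inr rfl)
  have e2 := h2 h hh A 1 hA hhA (Or.inl rfl)
  rw [← ncard_itv hhA hA2 hA2d] at e1 e2
  rw [Vy_eq K hκh]
  constructor
  · refine le_trans (le_of_eq ?_) e1
    congr 4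
    ext f
    simp only [Set.mem_ofPred_eq, mob_neg_one_iff, hfl, and_assoc]
  · refine le_trans (le_of_eq ?_) e2
    congr 4
    ext f
    simp only [Set.mem_ofPred_eq, mob_one_iff, hfl, and_assoc]

end Pool.Agent.H560.SQ
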