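import Mathlib
import Pool.Agent.H560.SQ.T3
import Pool.Agent.H287.SQ.SqD
import Pool.Agent.H337.SQ.Siv
import Pool.Agent.H897.SQ.SumR
import Pool.Agent.H350.SQ.CntR

/-!
# Around squares, `q` even: the asymptotic formula for sifted polynomials, final form (helper560)
-/

set_option autoImplicit false

namespace Pool.Agent.H560.SQ

open Polynomial

theorem s_siv : S_siv := Pool.Agent.H337.SQ.siv Pool.Agent.H348.AR.rtQ Pool.Agent.H985.Par.s_sw

theorem s_sumR : S_sumR :=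
  Pool.Agent.H897.SQ.sumR (Pool.Agent.H287.SQ.sqD s_winI Pool.Agent.H985.FC.win4s) s_siv
    Pool.Agent.H985.KP.typ2 Pool.Agent.H155.SI.vl

theorem s_cntR : S_cntR := Pool.Agent.H350.SQ.cntR s_siv Pool.Agent.H155.SI.vl

/-- **The asymptotic formula around every square.** -/
theorem sifted_final (K : Type) [Field K] [Fintype K] [CharP K 2]
    (ε : ℝ) (hε : 0 < ε) :
    ∃ κ₀ : ℝ, 0 < κ₀ ∧ ∀ κ : ℝ, 0 < κ → κ ≤ κ₀ → ∃ h₀ : ℕ, ∀ h : ℕ, h₀ ≤ h → ∀ A : K[X], A.Monic →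
      h ≤ 2 * A.natDegree →
      |({f : K[X] | (f - A ^ 2).degree < (h : WithBot ℕ) ∧ Squarefree f ∧
          Odd (Multiset.card (UniqueFactorizationMonoid.factors f)) ∧
          ∀ P : K[X], Irreducible P → P ∣ f → κ * h < (P.natDegree : ℝ)}.ncard : ℝ) -
        1 / 2 * Vy K (κ * h) * (Fintype.card K : ℝ) ^ h| ≤
          ε * Vy K (κ * h) * (Fintype.card K : ℝ) ^ h ∧
      |({f : K[X] | (f - A ^ 2).degree < (h : WithBot ℕ) ∧ Squarefree f ∧
          Even (Multiset.card (UniqueFactorizationMonoid.factors f)) ∧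
          ∀ P : K[X], Irreducible P → P ∣ f → κ * h < (P.natDegree : ℝ)}.ncard : ℝ) -
        1 / 2 * Vy K (κ * h) * (Fintype.card K : ℝ) ^ h| ≤
          ε * Vy K (κ * h) * (Fintype.card K : ℝ) ^ h :=
  sifted_top s_sumR s_cntR K ε hε

end Pool.Agent.H560.SQ
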